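import Pool.Agent.H.MP_671186_gt.A

namespace Pool.Agent.Results.MP_671186_gt.No
open Pool.Agent.H.MP_671186_gt Set

theorem result : ∃ S : Set (Set (ℝ × ℝ)), Setoid.IsPartition S ∧ S.Countable ∧
    (∀ Y ∈ S, ∀ x ∈ Y, ∀ y ∈ Y, max |x.1 - y.1| |x.2 - y.2| < 1) ∧
    ∀ p : ℝ × ℝ, {Y ∈ S | p ∈ closure Y}.encard ≤ 2 := by
  refine ⟨range X \ {∅}, ⟨fun h => h.2 rfl, fun p => ?_⟩, (countable_range X).mono diff_subset,
    ?_, fun p => ?_⟩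
  · obtain ⟨i, hi⟩ := X_cover p
    refine ⟨X i, ⟨⟨⟨i, rfl⟩, fun h => ?_⟩, hi⟩, ?_⟩
    · rw [mem_singleton_iff.mp h] at hi
      exact hi
    · rintro _ ⟨⟨⟨j, rfl⟩, -⟩, hj⟩
      rw [X_uniq hj hi]
  · rintro _ ⟨⟨i, rfl⟩, -⟩ x hx y hy
    exact X_dist hx hy
  · obtain ⟨i, j, h⟩ := X_two p
    refine (encard_le_encard (t := {X i, X j}) ?_).trans ?_
    · rintro _ ⟨⟨⟨m, rfl⟩, -⟩, hm⟩
      rcases h m hm with rfl | rfl <;> simp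
    · exact (encard_insert_le _ _).trans (by rw [encard_singleton]; rfl)

end Pool.Agent.Results.MP_671186_gt.No
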